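import Pool.Agent.W952.LP.Stm

/-!
# From coded open sets to the pattern
-/

set_option autoImplicit false

namespace Pool.Agent.W214.LP

open Pool.Agent.W952.LP Set

section
variable {Y : Type} [MetricSpace Y] [CompactSpace Y] (y : ℕ → Y)

/-- the coded open set -/
def Ob (L : List (ℕ × ℕ)) : Set Y := {x | ∃ p ∈ L, dist x (y p.1) < ratVal p.2}

omit [CompactSpace Y] in
theorem isOpen_Ob (L : List (ℕ × ℕ)) : IsOpen (Ob y L) := by
  have : Ob y L = ⋃ p ∈ L, Metric.ball (y p.1) (ratVal p.2) := by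
    ext x; simp [Ob]
  rw [this]
  exact isOpen_iUnion fun p => isOpen_iUnion fun _ => Metric.isOpen_ball

omit [CompactSpace Y] in
theorem mem_Ob (L : List (ℕ × ℕ)) (k : ℕ) :
    y k ∈ Ob y L ↔ InO (fun q => dist (y q.1) (y q.2.1) < ratVal q.2.2) k L := Iff.rfl

omit [CompactSpace Y] in
/-- points joined by fine chains inside a compact set are in the same component -/
theorem comp_of_chain (F : Set Y) (hF : IsCompact F) (a b : Y) (ha : a ∈ F)
    (h : ∀ r : ℝ, 0 < r → ∃ (m : ℕ) (c : ℕ → Y), c 0 = a ∧ c m = b ∧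
      (∀ j < m, dist (c j) (c (j + 1)) < r) ∧ ∀ j ≤ m, c j ∈ F) :
    b ∈ connectedComponentIn F a := by
  have hb : b ∈ F := by
    obtain ⟨m, c, h0, hm, -, h2⟩ := h 1 one_pos
    rw [← hm]; exact h2 m le_rfl
  rw [connectedComponentIn_eq_image ha]
  refine ⟨⟨b, hb⟩, ?_, rfl⟩
  have : CompactSpace F := isCompact_iff_compactSpace.mp hF
  rw [connectedComponent_eq_iInter_isClopen]
  refine Set.mem_iInter.mpr ?_
  rintro ⟨Z, hZ, haZ⟩
  show (⟨b, hb⟩ : F) ∈ Z
  have hd : Disjoint Z Zᶜ := disjoint_compl_right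
  obtain ⟨r, hr, hr2⟩ := Metric.exists_pos_forall_lt_edist hZ.1.isCompact
    hZ.compl.1 hd
  obtain ⟨m, c, h0, hm, h1, h2⟩ := h r (by exact_mod_cast hr)
  have key : ∀ j, ∀ hj : j ≤ m, (⟨c j, h2 j hj⟩ : F) ∈ Z := by
    intro j
    induction j with
    | zero =>
      intro hj
      have : (⟨c 0, h2 0 hj⟩ : F) = ⟨a, ha⟩ := Subtype.ext h0
      rw [this]; exact haZ
    | succ j ih =>
      intro hj
      by_contra hn
      have h3 := hr2 _ (ih (by omega)) _ hn
      have h4 := h1 j (by omega)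
      rw [edist_dist, Subtype.dist_eq] at h3
      simp only at h3
      have h5 : (r : ENNReal) = ENNReal.ofReal r := by simp
      rw [h5, ENNReal.ofReal_lt_ofReal_iff_of_nonneg (by positivity)] at h3
      linarith
  have := key m le_rfl
  have h6 : (⟨c m, h2 m le_rfl⟩ : F) = ⟨b, hb⟩ := Subtype.ext hm
  rw [h6] at this
  exact this

end

theorem back : S_back := by
  intro Y _ _ y hy n P u hC
  set Lt : ℕ × ℕ × ℕ → Prop := fun q => dist (y q.1) (y q.2.1) < ratVal q.2.2 with hLt
  have hin : ∀ t < 3 * n + 2, ∀ k, InO Lt k (oS P t) → InO Lt k (oL P t) := by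
    intro t ht k hk
    obtain ⟨c, h0, h1, -, -, h4⟩ := hC.chain t ht k k (Nat.pair 1 0) hk hk (by simp)
    have := h4 0 h0
    rwa [h1] at this
  choose! kk hkk using hC.nonempty
  let F : ℕ → Set Y := fun t => closure (Ob y (oL P t))
  have hFc : ∀ t, IsCompact (F t) := fun t => isClosed_closure.isCompact
  have hsub : ∀ t, ∀ k, InO Lt k (oL P t) → y k ∈ F t := fun t k hk =>
    subset_closure ((mem_Ob y _ k).2 hk)
  let K : ℕ → Set Y := fun t => connectedComponentIn (F t) (y (kk t))
  have hkF : ∀ t < 3 * n + 2, y (kk t) ∈ F t := fun t ht =>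
    hsub t _ (hin t ht _ (hkk t ht))
  have hmem : ∀ t < 3 * n + 2, ∀ l, InO Lt l (oS P t) → y l ∈ K t := by
    intro t ht l hl
    refine comp_of_chain (F t) (hFc t) _ _ (hkF t ht) ?_
    intro r hr
    obtain ⟨m, hm⟩ := exists_nat_one_div_lt hr
    obtain ⟨c, h0, h1, h2, h3, h4⟩ := hC.chain t ht (kk t) l (Nat.pair 1 m) (hkk t ht) hl (by simp)
    refine ⟨c.length - 1, fun j => y (c.getD j 0), by simp only [h1], by simp only [h2], ?_, ?_⟩
    · intro j hj
      have h5 : dist (y (c.getD j 0)) (y (c.getD (j + 1) 0)) < ratVal (Nat.pair 1 m) := h3 j hj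
      refine h5.trans ?_
      simpa [ratVal] using hm
    · intro j hj
      exact hsub t _ (h4 j (by omega))
  have hKcl : ∀ t < 3 * n + 2, IsClosed (K t) := by
    intro t ht
    show IsClosed (connectedComponentIn (F t) (y (kk t)))
    rw [connectedComponentIn_eq_image (hkF t ht)]
    exact (isClosed_closure.isClosedEmbedding_subtypeVal).isClosedMap _
      isClosed_connectedComponent
  have hKF : ∀ t, K t ⊆ F t := fun t => connectedComponentIn_subset _ _
  refine ⟨K, ⟨hKcl, ?_, ?_, ?_, ?_⟩⟩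
  · intro t ht
    exact isConnected_connectedComponentIn_iff.2 (hkF t ht)
  · have hcl : IsClosed (⋃ t ∈ Finset.range (3 * n + 2), K t) := by
      refine Set.Finite.isClosed_biUnion (Finset.finite_toSet _) ?_
      intro t ht
      exact hKcl t (by simpa using ht)
    have h7 : (Set.univ : Set Y) ⊆ ⋃ t ∈ Finset.range (3 * n + 2), K t := by
      rw [← hy.closure_range]
      refine hcl.closure_subset_iff.2 ?_
      rintro _ ⟨k, rfl⟩
      obtain ⟨t, ht, hk⟩ := hC.cover k
      exact Set.mem_biUnion (by simpa using ht) (hmem t ht k hk)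
    intro x
    have := h7 (Set.mem_univ x)
    simp only [Set.mem_iUnion, Finset.mem_range] at this
    obtain ⟨t, ht, hx⟩ := this
    exact ⟨t, ht, hx⟩
  · intro s t hst ht hA
    obtain ⟨k, h1, h2⟩ := hC.adj t ht s hst hA
    exact ⟨y k, hmem s (by omega) k h1, hmem t ht k h2⟩
  · intro s t hst ht hA
    have hu : 0 < ratVal u := by
      have := hC.pos
      unfold ratVal
      positivity
    have hcl : IsClosed {q : Y × Y | ratVal u ≤ dist q.1 q.2} :=
      isClosed_le continuous_const continuous_dist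
    have hall : F s ×ˢ F t ⊆ {q : Y × Y | ratVal u ≤ dist q.1 q.2} := by
      have e1 : ∀ r, F r = closure (Ob y (oL P r) ∩ Set.range y) := by
        intro r
        exact subset_antisymm (closure_minimal
          (Dense.open_subset_closure_inter hy (isOpen_Ob y _)) isClosed_closure)
          (closure_mono inter_subset_left)
      rw [e1 s, e1 t, ← closure_prod_eq]
      refine hcl.closure_subset_iff.2 ?_
      rintro ⟨a, b⟩ ⟨⟨ha, k, rfl⟩, ⟨hb, l, rfl⟩⟩
      exact not_lt.1 (hC.nadj t ht s hst hA k l ((mem_Ob y _ k).1 ha) ((mem_Ob y _ l).1 hb))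
    rw [Set.disjoint_left]
    intro x hx hx'
    have := hall (show (x, x) ∈ F s ×ˢ F t from ⟨hKF s hx, hKF t hx'⟩)
    simp only [Set.mem_ofPred_eq, dist_self] at this
    linarith

end Pool.Agent.W214.LP
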